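import Pool.Agent.H44.EHN.Stmts

/-!
# Board `ehn`, row LIM (helper62): the lower bound for all large `x`

`N = ⌊log x / (C log log x)⌋`, `J = ⌈√(N log N)⌉` in `DIC`.
-/

set_option autoImplicit false

open Classical

namespace EHN

private theorem lim_mono (d x y : ℕ) (h : x ≤ y) : ((S d x).card : ℝ) ≤ ((S d y).card : ℝ) := by
  have h1 : S d x ⊆ S d y := by
    unfold S
    intro m hm
    rw [Finset.mem_filter, Finset.mem_Icc] at hm ⊢
    exact ⟨⟨hm.1.1, hm.1.2.trans h⟩, hm.2⟩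
  exact_mod_cast Finset.card_le_card h1

/-- `a = √N`, `b = √(log N)`, `y = √(log log x)`, `g = √(2 C)`, `z = √(log x)` -/
private theorem lim_alg (c₀ a b y g z J s : ℝ) (hc₀ : 0 < c₀) (ha : 0 < a) (hb : 0 < b)
    (hy : 0 < y) (hg : 0 < g) (hJ1 : a * b ≤ J) (hJ2 : J ≤ 2 * (a * b)) (hby : b ≤ y)
    (hz : z ≤ a * g * y) (h : c₀ * a ^ 2 / (J * b ^ 2) ≤ s ∨ c₀ * J / (b ^ 2) ^ 2 ≤ s) :
    c₀ / (2 * g) * z / (y ^ 2) ^ 2 ≤ s := by
  have hJ0 : 0 < J := lt_of_lt_of_le (mul_pos ha hb) hJ1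
  have hA : c₀ * a / (2 * b ^ 3) ≤ s := by
    rcases h with h | h
    · refine le_trans ?_ h
      rw [div_le_div_iff₀ (by positivity) (by positivity)]
      calc c₀ * a * (J * b ^ 2) = (c₀ * a * b ^ 2) * J := by ring
        _ ≤ (c₀ * a * b ^ 2) * (2 * (a * b)) := by gcongr
        _ = c₀ * a ^ 2 * (2 * b ^ 3) := by ring
    · refine le_trans ?_ h
      rw [div_le_div_iff₀ (by positivity) (by positivity)]
      calc c₀ * a * (b ^ 2) ^ 2 = (c₀ * b ^ 3) * (a * b) := by ring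
        _ ≤ (c₀ * b ^ 3) * J := by gcongr
        _ ≤ (c₀ * b ^ 3) * J + (c₀ * b ^ 3) * J := by
          have : 0 ≤ (c₀ * b ^ 3) * J := by positivity
          linarith
        _ = c₀ * J * (2 * b ^ 3) := by ring
  refine le_trans ?_ hA
  calc c₀ / (2 * g) * z / (y ^ 2) ^ 2 ≤ c₀ / (2 * g) * (a * g * y) / (y ^ 2) ^ 2 := by gcongr
    _ = c₀ * a / (2 * y ^ 3) := by
      field_simp
    _ ≤ c₀ * a / (2 * b ^ 3) := by gcongr

theorem lim_thm (hDIC : DICStmt) : LIMStmt := by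
  intro d hd
  obtain ⟨c₀, C, hc₀, hC, hev⟩ := hDIC d hd
  have hC0 : 0 < C := by linarith
  refine ⟨c₀ / (2 * √(2 * C)), by positivity, ?_⟩
  have hX : Filter.Tendsto (fun x : ℕ => Real.log (x : ℝ)) Filter.atTop Filter.atTop :=
    Real.tendsto_log_atTop.comp tendsto_natCast_atTop_atTop
  have hY : Filter.Tendsto (fun x : ℕ => Real.log (Real.log (x : ℝ))) Filter.atTop
      Filter.atTop := Real.tendsto_log_atTop.comp hX
  have hq : Filter.Tendsto (fun x : ℕ => Real.log (x : ℝ) / (C * Real.log (Real.log (x : ℝ))))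
      Filter.atTop Filter.atTop := by
    have h1 : Filter.Tendsto (fun x : ℕ => √(Real.log (x : ℝ)) / (2 * C)) Filter.atTop
        Filter.atTop := (Real.tendsto_sqrt_atTop.comp hX).atTop_div_const (by linarith)
    refine Filter.tendsto_atTop_mono' _ ?_ h1
    filter_upwards [hX.eventually_ge_atTop 1, hY.eventually_gt_atTop 0] with x hx hy
    have h2 : Real.log (Real.log x) ≤ 2 * √(Real.log x) := by
      have h3 := Real.log_le_sub_one_of_pos
        (Real.sqrt_pos.2 (by linarith : 0 < Real.log (x : ℝ)))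
      rw [Real.log_sqrt (by linarith)] at h3
      linarith
    have h3 := Real.mul_self_sqrt (by linarith : 0 ≤ Real.log (x : ℝ))
    rw [div_le_div_iff₀ (by linarith) (by positivity)]
    calc √(Real.log x) * (C * Real.log (Real.log x)) ≤
        √(Real.log x) * (C * (2 * √(Real.log x))) := by gcongr
      _ = (√(Real.log x) * √(Real.log x)) * (2 * C) := by ring
      _ = Real.log x * (2 * C) := by rw [h3]
  have hN : Filter.Tendsto
      (fun x : ℕ => ⌊Real.log (x : ℝ) / (C * Real.log (Real.log (x : ℝ)))⌋₊)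
      Filter.atTop Filter.atTop := tendsto_nat_floor_atTop.comp hq
  have e1 : ∀ᶠ N : ℕ in Filter.atTop, Real.log (N : ℝ) ^ 3 ≤ N := by
    have h := (Real.isLittleO_pow_log_id_atTop (n := 3)).def (by norm_num : (0 : ℝ) < 1)
    have h' := (tendsto_natCast_atTop_atTop (R := ℝ)).eventually h
    filter_upwards [h'] with N hN
    rw [one_mul, Real.norm_eq_abs, Real.norm_eq_abs, id,
      abs_of_nonneg (Nat.cast_nonneg N : (0 : ℝ) ≤ N)] at hN
    exact (le_abs_self _).trans hN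
  have e2 : ∀ᶠ N : ℕ in Filter.atTop, 4 * Real.log (N : ℝ) ≤ (N : ℝ) ^ (4 / 10 : ℝ) := by
    have h := (isLittleO_log_rpow_atTop (by norm_num : (0 : ℝ) < 4 / 10)).def
      (by norm_num : (0 : ℝ) < 1 / 4)
    have h' := (tendsto_natCast_atTop_atTop (R := ℝ)).eventually h
    filter_upwards [h'] with N hN
    have hp : (0 : ℝ) ≤ (N : ℝ) ^ (4 / 10 : ℝ) := Real.rpow_nonneg (Nat.cast_nonneg N) _
    rw [Real.norm_eq_abs, Real.norm_eq_abs, abs_of_nonneg hp] at hN
    have h2 := (le_abs_self _).trans hN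
    linarith
  filter_upwards [hN.eventually hev, hN.eventually e1, hN.eventually e2,
    hN.eventually_ge_atTop 3, hq.eventually_ge_atTop 2, hX.eventually_ge_atTop 1,
    hY.eventually_ge_atTop 1] with x h0 h1 h2 h3 h4 h5 h6
  set X : ℝ := Real.log (x : ℝ) with hXdef
  set Y : ℝ := Real.log X with hYdef
  set N : ℕ := ⌊X / (C * Y)⌋₊ with hNdef
  have hX0 : 0 < X := by linarith
  have hY0 : 0 < Y := by linarith
  have hCY : 1 ≤ C * Y := by nlinarith
  have hx0 : (0 : ℝ) < x := by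
    have : x ≠ 0 := by
      rintro rfl
      rw [hXdef] at h5
      norm_num at h5
    exact_mod_cast Nat.pos_of_ne_zero this
  have hN3 : (3 : ℝ) ≤ N := by exact_mod_cast h3
  have hN0 : (0 : ℝ) < N := by linarith
  have hNle : (N : ℝ) ≤ X / (C * Y) := Nat.floor_le (by linarith)
  have hNX : (N : ℝ) ≤ X := hNle.trans (div_le_self hX0.le hCY)
  have hlY : Real.log N ≤ Y := Real.log_le_log hN0 hNX
  have hl1 : 1 ≤ Real.log N := by
    rw [Real.le_log_iff_exp_le hN0]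
    have := Real.exp_one_lt_d9
    linarith
  have hNge : X / (2 * C * Y) ≤ N := by
    have h7 := Nat.lt_floor_add_one (X / (C * Y))
    have h8 : X / (2 * C * Y) = X / (C * Y) / 2 := by
      rw [div_div]
      congr 1
      ring
    rw [h8]
    linarith
  have hexp : ∀ M : ℝ, 0 ≤ M → M ≤ N → ⌊Real.exp (C * M * Real.log N)⌋₊ ≤ x := by
    intro M hM hMN
    refine Nat.floor_le_of_le ?_
    rw [← Real.exp_log hx0]
    refine Real.exp_le_exp.2 ?_
    calc C * M * Real.log N ≤ C * (X / (C * Y)) * Y := by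
          gcongr
          exact hMN.trans hNle
      _ = X := by field_simp
  have hr1 : 1 ≤ √(N * Real.log N) := by
    rw [Real.one_le_sqrt]
    nlinarith
  have hJ1 : √(N * Real.log N) ≤ (⌈√(N * Real.log N)⌉₊ : ℝ) := Nat.le_ceil _
  have hJ2 : (⌈√(N * Real.log N)⌉₊ : ℝ) ≤ 2 * √(N * Real.log N) := by
    have := Nat.ceil_lt_add_one (Real.sqrt_nonneg (N * Real.log N))
    linarith
  have hc1 : Real.log N ^ 2 ≤ (⌈√(N * Real.log N)⌉₊ : ℝ) := by
    refine le_trans ?_ hJ1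
    refine Real.le_sqrt_of_sq_le ?_
    calc (Real.log N ^ 2) ^ 2 = Real.log N ^ 3 * Real.log N := by ring
      _ ≤ N * Real.log N := by gcongr
  have hc2 : (⌈√(N * Real.log N)⌉₊ : ℝ) ≤ (N : ℝ) ^ (7 / 10 : ℝ) := by
    refine hJ2.trans ?_
    have hp : (0 : ℝ) ≤ (N : ℝ) ^ (7 / 10 : ℝ) := Real.rpow_nonneg hN0.le _
    have h8 : ((N : ℝ) ^ (7 / 10 : ℝ)) ^ 2 = N * (N : ℝ) ^ (4 / 10 : ℝ) := by
      rw [← Real.rpow_natCast ((N : ℝ) ^ (7 / 10 : ℝ)) 2, ← Real.rpow_mul hN0.le]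
      have h7 : (7 / 10 : ℝ) * ((2 : ℕ) : ℝ) = 1 + 4 / 10 := by norm_num
      rw [h7, Real.rpow_add hN0, Real.rpow_one]
    rw [← pow_le_pow_iff_left₀ (by positivity) hp two_ne_zero, mul_pow,
      Real.sq_sqrt (by positivity), h8]
    calc (2 : ℝ) ^ 2 * (N * Real.log N) = N * (4 * Real.log N) := by ring
      _ ≤ N * (N : ℝ) ^ (4 / 10 : ℝ) := by gcongr
  have hJN : (⌈√(N * Real.log N)⌉₊ : ℝ) ≤ N := by
    refine hc2.trans ?_
    calc (N : ℝ) ^ (7 / 10 : ℝ) ≤ (N : ℝ) ^ (1 : ℝ) :=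
          Real.rpow_le_rpow_of_exponent_le (by linarith) (by norm_num)
      _ = N := Real.rpow_one _
  have hfin : c₀ * N / ((⌈√(N * Real.log N)⌉₊ : ℝ) * Real.log N) ≤ ((S d x).card : ℝ) ∨
      c₀ * (⌈√(N * Real.log N)⌉₊ : ℝ) / Real.log N ^ 2 ≤ ((S d x).card : ℝ) := by
    rcases h0 ⌈√(N * Real.log N)⌉₊ hc1 hc2 with h | h
    · exact Or.inl (h.trans (lim_mono d _ _ (hexp _ (Nat.cast_nonneg _) hJN)))
    · exact Or.inr (h.trans (lim_mono d _ _ (hexp _ hN0.le le_rfl)))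
  have ha2 : √(N : ℝ) ^ 2 = N := Real.sq_sqrt hN0.le
  have hb2 : √(Real.log N) ^ 2 = Real.log N := Real.sq_sqrt (by linarith)
  have hy2 : √Y ^ 2 = Y := Real.sq_sqrt hY0.le
  have hg2 : √(2 * C) ^ 2 = 2 * C := Real.sq_sqrt (by linarith)
  have hab : √(N * Real.log N) = √(N : ℝ) * √(Real.log N) := Real.sqrt_mul hN0.le _
  have hz : √X ≤ √(N : ℝ) * √(2 * C) * √Y := by
    rw [Real.sqrt_le_left (by positivity), mul_pow, mul_pow, ha2, hg2, hy2]
    rw [div_le_iff₀ (by positivity)] at hNge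
    linarith
  have := lim_alg c₀ √(N : ℝ) √(Real.log N) √Y √(2 * C) √X ⌈√(N * Real.log N)⌉₊ ((S d x).card : ℝ)
    hc₀ (Real.sqrt_pos.2 hN0) (Real.sqrt_pos.2 (by linarith)) (Real.sqrt_pos.2 hY0)
    (Real.sqrt_pos.2 (by linarith)) (hab ▸ hJ1) (hab ▸ hJ2) (Real.sqrt_le_sqrt hlY) hz
    (by rw [ha2, hb2]; exact hfin)
  rw [hy2] at this
  exact this

end EHN
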